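import Mathlib

set_option autoImplicit false

namespace Pool.Agent.Results.MP_3ea013_an.Counter

/-- Left stability of a subalgebra `S` with the restricted norm. -/
def LeftStable {A : Type} [NormedRing A] (S : Set A) : Prop :=
  ∀ a ∈ S, ∀ M : ℝ, 0 < M → (∀ b ∈ S, ‖a * b‖ ≤ M * ‖b‖) → ‖a‖ ≤ M

/-- Right stability of a subalgebra `S` with the restricted norm. -/
def RightStable {A : Type} [NormedRing A] (S : Set A) : Prop :=
  ∀ a ∈ S, ∀ M : ℝ, 0 < M → (∀ b ∈ S, ‖b * a‖ ≤ M * ‖b‖) → ‖a‖ ≤ M

def B : Type := ℂ × ℂ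

noncomputable instance : CommRing B := inferInstanceAs (CommRing (ℂ × ℂ))
noncomputable instance : Algebra ℂ B := inferInstanceAs (Algebra ℂ (ℂ × ℂ))

def p (x : B) : ℂ := Prod.fst x
def q (x : B) : ℂ := Prod.snd x

lemma p_add (x y : B) : p (x + y) = p x + p y := rfl
lemma q_add (x y : B) : q (x + y) = q x + q y := rfl
lemma p_neg (x : B) : p (-x) = -p x := rfl
lemma q_neg (x : B) : q (-x) = -q x := rfl
lemma p_mul (x y : B) : p (x * y) = p x * p y := rfl
lemma q_mul (x y : B) : q (x * y) = q x * q y := rfl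
lemma p_smul (c : ℂ) (x : B) : p (c • x) = c * p x := rfl
lemma q_smul (c : ℂ) (x : B) : q (c • x) = c * q x := rfl
lemma ext' {x y : B} (h1 : p x = p y) (h2 : q x = q y) : x = y := Prod.ext h1 h2

noncomputable def nrm : AddGroupNorm B where
  toFun x := ‖q x‖ + 2 * ‖p x - q x‖
  map_zero' := by
    have h1 : p 0 = 0 := rfl
    have h2 : q 0 = 0 := rfl
    simp [h1, h2]
  add_le' x y := by
    rw [p_add, q_add]
    have h1 := norm_add_le (q x) (q y)
    have h2 := norm_add_le (p x - q x) (p y - q y)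
    rw [show p x - q x + (p y - q y) = p x + p y - (q x + q y) by ring] at h2
    linarith
  neg' x := by
    rw [p_neg, q_neg, norm_neg, show -p x - -q x = -(p x - q x) by ring, norm_neg]
  eq_zero_of_map_eq_zero' x h := by
    have h1 := norm_nonneg (q x)
    have h2 := norm_nonneg (p x - q x)
    have h3 : q x = 0 := norm_eq_zero.mp (by linarith)
    have h4 : p x - q x = 0 := norm_eq_zero.mp (by linarith)
    exact ext' (by rw [h3, sub_zero] at h4; exact h4) h3

noncomputable instance : NormedAddCommGroup B := nrm.toNormedAddCommGroup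

lemma norm_def (x : B) : ‖x‖ = ‖q x‖ + 2 * ‖p x - q x‖ := rfl

noncomputable instance : NormedRing B where
  dist_eq := NormedAddCommGroup.dist_eq
  norm_mul_le x y := by
    rw [norm_def, norm_def, norm_def, p_mul, q_mul, norm_mul,
      show p x * p y - q x * q y = q x * (p y - q y) + (p x - q x) * q y
        + (p x - q x) * (p y - q y) by ring]
    have h1 := norm_add₃_le (a := q x * (p y - q y)) (b := (p x - q x) * q y)
      (c := (p x - q x) * (p y - q y))
    simp only [norm_mul] at h1
    have h2 := mul_nonneg (norm_nonneg (p x - q x)) (norm_nonneg (p y - q y))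
    nlinarith

noncomputable instance : NormedAlgebra ℂ B where
  norm_smul_le c x := by
    rw [norm_def, norm_def, p_smul, q_smul, ← mul_sub, norm_mul, norm_mul]
    exact le_of_eq (by ring)

lemma norm_one' : ‖(1 : B)‖ = 1 := by
  have h1 : p 1 = 1 := rfl
  have h2 : q 1 = 1 := rfl
  simp [norm_def, h1, h2]

noncomputable def I : TwoSidedIdeal B := TwoSidedIdeal.mk' {x | q x = 0} rfl
  (fun {x y} hx hy => by
    simp only [Set.mem_setOf_eq] at *; rw [q_add, hx, hy, add_zero])
  (fun {x} hx => by simp only [Set.mem_setOf_eq] at *; rw [q_neg, hx, neg_zero])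
  (fun {x y} hy => by simp only [Set.mem_setOf_eq] at *; rw [q_mul, hy, mul_zero])
  (fun {x y} hx => by simp only [Set.mem_setOf_eq] at *; rw [q_mul, hx, zero_mul])

lemma mem_I (x : B) : x ∈ I ↔ q x = 0 := by
  unfold I; rw [TwoSidedIdeal.mem_mk']; rfl

def e : B := ((1 : ℂ), (0 : ℂ))

lemma key (b : B) (hb : b ∈ I) : e * b = b := by
  rw [mem_I] at hb
  refine ext' ?_ ?_
  · rw [p_mul]; exact one_mul _
  · rw [q_mul, hb, mul_zero]

lemma norm_e : ‖e‖ = 2 := by
  have h1 : p e = 1 := rfl
  have h2 : q e = 0 := rfl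
  simp [norm_def, h1, h2]

theorem result : ∃ (A : Type) (_ : NormedRing A) (_ : NormedAlgebra ℂ A) (J : TwoSidedIdeal A),
    (LeftStable (Set.univ : Set A) ∧ RightStable (Set.univ : Set A)) ∧
    (∃ u ∈ J, ∀ b ∈ J, u * b = b ∧ b * u = b) ∧
    ¬ LeftStable (J : Set A) ∧ ¬ RightStable (J : Set A) := by
  have he : e ∈ I := (mem_I e).mpr rfl
  refine ⟨B, inferInstance, inferInstance, I, ⟨?_, ?_⟩, ⟨e, he, fun b hb => ⟨key b hb, ?_⟩⟩, ?_, ?_⟩
  · intro a _ M _ h
    simpa [norm_one'] using h 1 trivial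
  · intro a _ M _ h
    simpa [norm_one'] using h 1 trivial
  · rw [mul_comm]; exact key b hb
  · intro h
    have := h e he 1 one_pos (fun b hb => by rw [key b hb, one_mul])
    rw [norm_e] at this; norm_num at this
  · intro h
    have := h e he 1 one_pos (fun b hb => by rw [mul_comm, key b hb, one_mul])
    rw [norm_e] at this; norm_num at this

end Pool.Agent.Results.MP_3ea013_an.Counter
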